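import Mathlib
import Pool.Agent.Lib.MP_e1960e_nt.H13.DetClass

/-!
# Determinantal quartic surfaces

For a whole residue class modulo 30 of `4 × 4 × 4` tensors the determinantal quartic surface is
nonsingular and its set of rational points is empty or infinite.
-/

set_option autoImplicit false

namespace Pool.Agent.Results.MP_e1960e_nt.Determinantal

open Pool.Agent.Lib.MP_e1960e_nt.H13 NumberField

/-- **Main theorem.** -/
theorem result : ∃ E : Fin 4 → Fin 4 → Fin 4 → ℤ,
    (points (detForm fun i j k => (E i j k : ℚ))).Infinite ∧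
    ∀ (K : Type) [Field K] [NumberField K], Nonempty (K →+* ℚ_[2]) → Nonempty (K →+* ℚ_[3]) →
      ∀ T : Fin 4 → Fin 4 → Fin 4 → 𝓞 K,
        (∀ i j k, (30 : 𝓞 K) ∣ T i j k - ((E i j k : ℤ) : 𝓞 K)) →
        (∀ x : Fin 4 → AlgebraicClosure K, x ≠ 0 → ¬ ∀ i, MvPolynomial.aeval x
          (MvPolynomial.pderiv i (detForm fun i j k => (T i j k : K))) = 0) ∧
        (points (detForm fun i j k => (T i j k : K)) = ∅ ∨
          (points (detForm fun i j k => (T i j k : K))).Infinite) := by
  refine ⟨tenE, ?_, ?_⟩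
  · -- the surface over the rational numbers
    intro hfin
    have hx : (![1, 1, 0, 0] : Fin 4 → ℚ) ≠ 0 := by
      intro h0
      have := congrFun h0 0
      simp at this
    have hne : (surf fun i j k => ((tenE i j k : ℤ) : ℚ)).Nonempty := by
      refine ⟨Projectivization.mk ℚ ![1, 1, 0, 0] hx, ![1, 0, 0, 0], ?_, ?_⟩
      · intro h0
        have := congrFun h0 0
        simp at this
      · intro k
        obtain ⟨c, hc⟩ := Projectivization.exists_smul_eq_mk_rep ℚ (![1, 1, 0, 0] : Fin 4 → ℚ) hx
        rw [← hc]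
        have e : (c • (![1, 1, 0, 0] : Fin 4 → ℚ)) = fun i => (c : ℚ) * (![1, 1, 0, 0] : Fin 4 → ℚ) i
          := rfl
        rw [e, ap_smul_left]
        have hk : ((tenE 0 0 k : ℤ) : ℚ) + ((tenE 1 0 k : ℤ) : ℚ) = 0 := by
          exact_mod_cast tenE_point k
        have : ap (fun i j k => ((tenE i j k : ℤ) : ℚ)) ![1, 1, 0, 0] ![1, 0, 0, 0] k = 0 := by
          simp only [ap, Fin.sum_univ_four, Matrix.cons_val_zero, Matrix.cons_val_one,
            Matrix.cons_val]
          linear_combination hk
        rw [this, mul_zero]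
    rw [points_detForm] at hfin
    refine cayley_dichotomy (algebraMap ℚ ℚ_[2]) (algebraMap ℚ ℚ_[3]) _
      (fun i j k => ((tenE i j k : ℤ) : ℤ_[2])) (fun i j k => by simp)
      (fun i j k => by rw [map_intCast, tenE_two])
      (fun i j k => ((tenE i j k : ℤ) : ℤ_[3])) (fun i j k => by simp)
      (fun i j k => by rw [map_intCast, tenE_three]) hfin hne
  · rintro K _ _ ⟨φ2⟩ ⟨φ3⟩ T hT
    exact ⟨fun x hx => detClass_smooth T hT x hx, class_dichotomy φ2 φ3 T hT⟩

end Pool.Agent.Results.MP_e1960e_nt.Determinantal
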