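import Mathlib
import Pool.Agent.Lib.MP_e1960e_nt.H13.Smooth

/-!
# Quartic surfaces containing an intersection of two quadrics

`X : q₀ q₃ = q₁ q₂` is swept out by the curves `C_(l:m) : m q₀ = l q₁, m q₂ = l q₃`. If a rational
point lies on a curve whose discriminant quartic `det (s U + r V)` has no zero over `K` and whose
cubic resolvent has no root in `K`, then `X(K)` is infinite.
-/

set_option autoImplicit false

namespace Pool.Agent.Results.MP_e1960e_nt.GenericFibre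

open Matrix Pool.Agent.Lib.MP_e1960e_nt.H13

/-- Every point of the surface lies on a curve of the pencil. -/
theorem exists_fibre {K : Type*} [Field K] (A : Fin 4 → Matrix (Fin 4) (Fin 4) K)
    (P : Fin 4 → K) (hP : MvPolynomial.eval P (quartic A) = 0) : ∃ l m : K, (l ≠ 0 ∨ m ≠ 0) ∧
      m * (P ⬝ᵥ (A 0 *ᵥ P)) = l * (P ⬝ᵥ (A 1 *ᵥ P)) ∧
      m * (P ⬝ᵥ (A 2 *ᵥ P)) = l * (P ⬝ᵥ (A 3 *ᵥ P)) := by
  rw [eval_quartic] at hP
  by_cases h01 : P ⬝ᵥ (A 0 *ᵥ P) = 0 ∧ P ⬝ᵥ (A 1 *ᵥ P) = 0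
  · obtain ⟨h0, h1⟩ := h01
    by_cases h23 : P ⬝ᵥ (A 2 *ᵥ P) = 0 ∧ P ⬝ᵥ (A 3 *ᵥ P) = 0
    · exact ⟨1, 0, Or.inl one_ne_zero, by rw [h0, h1]; ring, by rw [h23.1, h23.2]; ring⟩
    · refine ⟨P ⬝ᵥ (A 2 *ᵥ P), P ⬝ᵥ (A 3 *ᵥ P), ?_, by rw [h0, h1]; ring, by ring⟩
      by_contra hcon
      push Not at hcon
      exact h23 hcon
  · refine ⟨P ⬝ᵥ (A 0 *ᵥ P), P ⬝ᵥ (A 1 *ᵥ P), ?_, by ring, by linear_combination -hP⟩
    by_contra hcon
    push Not at hcon
    exact h01 hcon

/-- The base point of the residue class. -/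
def repMat : Fin 4 → Matrix (Fin 4) (Fin 4) ℤ := fun i => Matrix.of (repE i)

theorem repMat_apply (i j k : Fin 4) : repMat i j k = repE i j k := rfl

theorem repMat_symm (i : Fin 4) : (repMat i)ᵀ = repMat i := by
  ext j k
  rw [Matrix.transpose_apply, repMat_apply, repMat_apply]
  revert i j k
  decide

/-- **Main theorem.** -/
theorem result :
    (∀ (K : Type) [Field K] [NumberField K] (A : Fin 4 → Matrix (Fin 4) (Fin 4) K),
      (∀ i, (A i)ᵀ = A i) →
      ∀ (P : Projectivization K (Fin 4 → K)) (l m : K), (l ≠ 0 ∨ m ≠ 0) →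
        MvPolynomial.eval P.rep (quad (m • A 0 - l • A 1)) = 0 →
        MvPolynomial.eval P.rep (quad (m • A 2 - l • A 3)) = 0 →
        GenericPencil (m • A 0 - l • A 1) (m • A 2 - l • A 3) →
        (points (quartic A)).Infinite) ∧
    ∃ E : Fin 4 → Matrix (Fin 4) (Fin 4) ℤ, (∀ i, (E i)ᵀ = E i) ∧
      (points (quartic fun i => (E i).map (Int.cast : ℤ → ℚ))).Infinite ∧
      ∀ A : Fin 4 → Matrix (Fin 4) (Fin 4) ℤ, (∀ i, (A i)ᵀ = A i) →
        (∀ i j k, A i j k ≡ E i j k [ZMOD 30]) →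
        (∀ x : Fin 4 → AlgebraicClosure ℚ, x ≠ 0 → ¬ ∀ i, MvPolynomial.aeval x
          (MvPolynomial.pderiv i (quartic fun i => (A i).map (Int.cast : ℤ → ℚ))) = 0) ∧
        (∀ l m : ℚ, (l ≠ 0 ∨ m ≠ 0) → GenericPencil
          (m • (A 0).map (Int.cast : ℤ → ℚ) - l • (A 1).map (Int.cast : ℤ → ℚ))
          (m • (A 2).map (Int.cast : ℤ → ℚ) - l • (A 3).map (Int.cast : ℤ → ℚ))) ∧
        (points (quartic fun i => (A i).map (Int.cast : ℤ → ℚ)) = ∅ ∨
          (points (quartic fun i => (A i).map (Int.cast : ℤ → ℚ))).Infinite) := by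
  have h1 : ∀ (K : Type) [Field K] [NumberField K] (A : Fin 4 → Matrix (Fin 4) (Fin 4) K),
      (∀ i, (A i)ᵀ = A i) →
      ∀ (P : Projectivization K (Fin 4 → K)) (l m : K), (l ≠ 0 ∨ m ≠ 0) →
        MvPolynomial.eval P.rep (quad (m • A 0 - l • A 1)) = 0 →
        MvPolynomial.eval P.rep (quad (m • A 2 - l • A 3)) = 0 →
        GenericPencil (m • A 0 - l • A 1) (m • A 2 - l • A 3) →
        (points (quartic A)).Infinite := by
    intro K _ _ A hA P l m hlm h01 h23 hgen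
    rw [eval_quad, quad_comb, sub_eq_zero] at h01 h23
    exact infinite_of_generic two_ne_zero A hA P.rep P.rep_nonzero l m hlm h01 h23 hgen
  have h2 : ∀ A : Fin 4 → Matrix (Fin 4) (Fin 4) ℤ, (∀ i, (A i)ᵀ = A i) →
      (∀ i j k, A i j k ≡ repE i j k [ZMOD 30]) →
      (points (quartic fun i => (A i).map (Int.cast : ℤ → ℚ)) = ∅ ∨
        (points (quartic fun i => (A i).map (Int.cast : ℤ → ℚ))).Infinite) := by
    intro A hA hE
    rcases Set.eq_empty_or_nonempty (points (quartic fun i => (A i).map (Int.cast : ℤ → ℚ)))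
      with h | ⟨P, hP⟩
    · exact Or.inl h
    · right
      obtain ⟨l, m, hlm, h01, h23⟩ := exists_fibre _ P.rep hP
      refine infinite_of_generic two_ne_zero _ ?_ P.rep P.rep_nonzero l m hlm h01 h23
        (class_generic A hE l m hlm)
      intro i
      rw [← Matrix.transpose_map, hA i]
  refine ⟨h1, repMat, repMat_symm, ?_, ?_⟩
  · rcases h2 repMat repMat_symm (fun i j k => Int.ModEq.refl _) with h | h
    · exfalso
      have hx : (![1, 1, 0, 0] : Fin 4 → ℚ) ≠ 0 := by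
        intro h0
        have := congrFun h0 0
        simp at this
      have : Projectivization.mk ℚ (![1, 1, 0, 0] : Fin 4 → ℚ) hx ∈ points (quartic fun i =>
          (repMat i).map (Int.cast : ℤ → ℚ)) := by
        simp only [points, Set.mem_ofPred_eq]
        obtain ⟨c, hc⟩ := Projectivization.exists_smul_eq_mk_rep ℚ (![1, 1, 0, 0] : Fin 4 → ℚ) hx
        rw [← hc, eval_quartic]
        have hcc : (c • (![1, 1, 0, 0] : Fin 4 → ℚ)) = (c : ℚ) • (![1, 1, 0, 0] : Fin 4 → ℚ) := rfl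
        rw [hcc, quad_smul, quad_smul, quad_smul, quad_smul]
        have e0 : (![1, 1, 0, 0] : Fin 4 → ℚ) ⬝ᵥ ((repMat 0).map (Int.cast : ℤ → ℚ) *ᵥ
            ![1, 1, 0, 0]) = 0 := by
          simp [Matrix.mulVec, dotProduct, Fin.sum_univ_four, repMat_apply, repE]
          norm_num
        have e1 : (![1, 1, 0, 0] : Fin 4 → ℚ) ⬝ᵥ ((repMat 1).map (Int.cast : ℤ → ℚ) *ᵥ
            ![1, 1, 0, 0]) = 0 := by
          simp [Matrix.mulVec, dotProduct, Fin.sum_univ_four, repMat_apply, repE]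
          norm_num
        rw [e0, e1]
        ring
      rw [h] at this
      exact this
    · exact h
  · intro A hA hE
    exact ⟨fun x hx => class_smooth A hA hE x hx, fun l m hlm => class_generic A hE l m hlm,
      h2 A hA hE⟩

end Pool.Agent.Results.MP_e1960e_nt.GenericFibre
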